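import Pool.Agent.H38.NP.Defs

namespace Pool.Agent.H38.Core

variable {V : Type} [Fintype V] (G : SimpleGraph V)

/-- the set of vertices adjacent to some vertex of `X` -/
def nbr (X : Finset V) : Set V := {v | ∃ x ∈ X, G.Adj x v}

/-- the difference `d(X) = |X| - |N(X)|` -/
noncomputable def diff (X : Finset V) : ℤ := (X.card : ℤ) - ((nbr G X).ncard : ℤ)

/-- critical independent sets -/
def Critical (I : Finset V) : Prop :=
  G.IsIndepSet (I : Set V) ∧ ∀ J : Finset V, G.IsIndepSet (J : Set V) → diff G J ≤ diff G I

/-- maximum critical independent sets -/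
def MaxCritical (I : Finset V) : Prop :=
  Critical G I ∧ ∀ J : Finset V, Critical G J → J.card ≤ I.card

/-- intersection of all maximum independent sets -/
def core : Set V := {v | ∀ S : Finset V, G.IsMaximumIndepSet S → v ∈ S}

/-- intersection of all maximum critical independent sets -/
def nucleus : Set V := {v | ∀ I : Finset V, MaxCritical G I → v ∈ I}

end Pool.Agent.H38.Core
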