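import Pool.Agent.H38.Core.Defs
import Pool.Agent.H38.NP.Graphs

namespace Pool.Agent.H38.Core

open Pool.Agent.H38.NP

theorem nucleus_empty {V : Type} [Fintype V] (G : SimpleGraph V)
    (h : ∀ I : Finset V, G.IsIndepSet (I : Set V) → I.Nonempty → I.card < (nbr G I).ncard) :
    nucleus G = ∅ := by
  have h0 : diff G ∅ = 0 := by simp [diff, nbr]
  have hc : ∀ I, Critical G I ↔ I = ∅ := by
    intro I
    constructor
    · rintro ⟨h1, h2⟩
      by_contra hne
      have := h I h1 (Finset.nonempty_iff_ne_empty.2 hne)
      have := h2 ∅ (by simp)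
      simp only [diff] at *
      omega
    · rintro rfl
      refine ⟨by simp, fun J hJ => ?_⟩
      rcases J.eq_empty_or_nonempty with rfl | hne
      · rfl
      · have := h J hJ hne
        simp only [diff] at *
        omega
  ext v
  simp only [nucleus, Set.mem_ofPred_eq, Set.mem_empty_iff_false, iff_false, not_forall]
  exact ⟨∅, ⟨(hc _).2 rfl, fun J hJ => by simp [(hc J).1 hJ]⟩, by simp⟩

/-- block of a vertex: `0` for the old graph (and `e` extra isolated vertices),
`1` and `2` for two independent sets of sizes `k + 2` and `m` -/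
def blk (n k u : ℕ) : ℕ := if u < n then 0 else if u < n + k then 1 else 2

/-- `G` plus `e` isolated vertices, joined with independent sets of sizes `k` and `m` -/
def red (n : ℕ) (E : List (ℕ × ℕ)) (e k m : ℕ) : ℕ × List (ℕ × ℕ) :=
  (n + e + k + m, edgesOf (n + e + k + m) fun u v =>
    decide (blk (n + e) k u ≠ blk (n + e) k v) ||
      (decide (u < n) && decide (v < n) && decide ((u, v) ∈ E)))

abbrev RG (n : ℕ) (E : List (ℕ × ℕ)) (e k m : ℕ) := graphOf (red n E e k m).1 (red n E e k m).2

theorem red_adj {n E e k m} {u v : Fin (red n E e k m).1} :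
    (RG n E e k m).Adj u v ↔ blk (n + e) k u ≠ blk (n + e) k v ∨
      (u.val ≠ v.val ∧ u.val < n ∧ v.val < n ∧ ((u.val, v.val) ∈ E ∨ (v.val, u.val) ∈ E)) := by
  have : blk (n + e) k u ≠ blk (n + e) k v → u.val ≠ v.val := fun h e => h (by rw [e])
  erw [graphOf_edgesOf_adj]
  simp only [Bool.or_eq_true, Bool.and_eq_true, decide_eq_true_eq, ne_eq]
  tauto

theorem card_le_of_range {N : ℕ} (S : Finset (Fin N)) (a b : ℕ) (h : ∀ v ∈ S, a ≤ v.val ∧ v.val < a + b) :
    S.card ≤ b := by
  have : S.image Fin.val ⊆ Finset.Ico a (a + b) := fun x hx => by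
    obtain ⟨v, hv, rfl⟩ := Finset.mem_image.1 hx
    simpa using h v hv
  simpa [Finset.card_image_of_injective _ Fin.val_injective] using Finset.card_le_card this

/-- the interval as a finite set of vertices -/
def ival (N a b : ℕ) : Finset (Fin N) := Finset.univ.filter fun v => a ≤ v.val ∧ v.val < a + b

theorem card_ival {N a b : ℕ} (h : a + b ≤ N) : (ival N a b).card = b := by
  have : (ival N a b).image Fin.val = Finset.Ico a (a + b) := by
    ext x
    simp only [ival, Finset.mem_image, Finset.mem_filter, Finset.mem_univ, true_and, Finset.mem_Ico]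
    exact ⟨by rintro ⟨v, hv, rfl⟩; exact hv, fun hx => ⟨⟨x, by omega⟩, hx, rfl⟩⟩
  rw [← Finset.card_image_of_injective _ Fin.val_injective, this]; simp

section

variable {n : ℕ} {E : List (ℕ × ℕ)} {e k m : ℕ}

theorem indep_cases (S : Finset (Fin (red n E e k m).1))
    (hS : (RG n E e k m).IsIndepSet (S : Set _)) :
    (∀ v ∈ S, v.val < n + e) ∨ (∀ v ∈ S, n + e ≤ v.val ∧ v.val < n + e + k) ∨
      (∀ v ∈ S, n + e + k ≤ v.val ∧ v.val < n + e + k + m) := by
  rcases S.eq_empty_or_nonempty with rfl | ⟨u, hu⟩
  · simp
  have h : ∀ v ∈ S, blk (n + e) k u = blk (n + e) k v := fun v hv => by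
    by_contra hne
    exact hS hu hv (fun e => hne (by rw [e])) (red_adj.2 (Or.inl hne))
  have hlt : ∀ v : Fin (red n E e k m).1, v.val < n + e + k + m := fun v => v.2
  by_cases h1 : u.val < n + e
  · left; intro v hv; have := h v hv; unfold blk at this; split_ifs at this <;> omega
  by_cases h2 : u.val < n + e + k
  · right; left; intro v hv; have := h v hv; unfold blk at this; split_ifs at this <;> omega
  · right; right; intro v hv; have := h v hv; have := hlt v
    unfold blk at *; split_ifs at * <;> omega

theorem indepN_of (S : Finset (Fin (red n E e k m).1))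
    (hS : (RG n E e k m).IsIndepSet (S : Set _)) :
    IndepN n E ((S.filter fun v => v.val < n).image Fin.val) := by
  refine ⟨fun x hx => ?_, fun x hx y hy hne hE => ?_⟩
  · obtain ⟨v, hv, rfl⟩ := Finset.mem_image.1 hx
    exact (Finset.mem_filter.1 hv).2
  · obtain ⟨u, hu, rfl⟩ := Finset.mem_image.1 hx
    obtain ⟨v, hv, rfl⟩ := Finset.mem_image.1 hy
    rw [Finset.mem_filter] at hu hv
    exact hS hu.1 hv.1 (fun e => hne (by rw [e])) (red_adj.2 (Or.inr ⟨hne, hu.2, hv.2, Or.inl hE⟩))

theorem card_split (S : Finset (Fin (red n E e k m).1)) (h : ∀ v ∈ S, v.val < n + e) :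
    S.card = ((S.filter fun v => v.val < n).image Fin.val).card +
      (S.filter fun v => ¬ v.val < n).card ∧ (S.filter fun v => ¬ v.val < n) ⊆ ival _ n e := by
  rw [Finset.card_image_of_injective _ Fin.val_injective, Finset.card_filter_add_card_filter_not]
  refine ⟨rfl, fun v hv => ?_⟩
  rw [Finset.mem_filter] at hv
  simpa [ival] using ⟨not_lt.1 hv.2, h v hv.1⟩

theorem ival_indep (a b : ℕ) (h : n ≤ a) (h' : a + b ≤ n + e ∨ (n + e ≤ a ∧ a + b ≤ n + e + k) ∨
    n + e + k ≤ a) : (RG n E e k m).IsIndepSet (ival (red n E e k m).1 a b : Set _) := by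
  intro u hu v hv _ hadj
  simp only [ival, Finset.coe_filter, Finset.mem_univ, true_and, Set.mem_ofPred_eq] at hu hv
  rcases red_adj.1 hadj with h | h
  · apply h; unfold blk; split_ifs <;> omega
  · omega

theorem lift_indep (S : Finset ℕ) (hS : IndepN n E S) :
    ∃ T : Finset (Fin (red n E e k m).1), (RG n E e k m).IsIndepSet (T : Set _) ∧
      T.card = S.card + e ∧ ∀ v ∈ T, v.val < n + e := by
  let T : Finset (Fin (red n E e k m).1) := Finset.univ.filter fun v => v.val ∈ S
  have hT : T.image Fin.val = S := by
    ext x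
    simp only [T, Finset.mem_image, Finset.mem_filter, Finset.mem_univ, true_and]
    exact ⟨by rintro ⟨v, hv, rfl⟩; exact hv, fun hx =>
      ⟨⟨x, by have := hS.1 x hx; simp only [red]; omega⟩, hx, rfl⟩⟩
  have hT' : ∀ v ∈ T, v.val ∈ S := fun v hv => by simpa [T] using hv
  refine ⟨T ∪ ival _ n e, ?_, ?_, ?_⟩
  · intro u hu v hv _ hadj
    simp only [T, ival, Finset.coe_union, Finset.coe_filter, Finset.mem_univ, true_and,
      Set.mem_union, Set.mem_ofPred_eq] at hu hv
    rcases red_adj.1 hadj with h | ⟨h1, h2, h3, h4⟩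
    · apply h
      have : u.val < n + e := by rcases hu with hu | hu; have := hS.1 _ hu; omega; omega
      have : v.val < n + e := by rcases hv with hv | hv; have := hS.1 _ hv; omega; omega
      simp [blk, *]
    · have hu' : u.val ∈ S := hu.resolve_right (by omega)
      have hv' : v.val ∈ S := hv.resolve_right (by omega)
      rcases h4 with h4 | h4
      · exact hS.2 _ hu' _ hv' h1 h4
      · exact hS.2 _ hv' _ hu' h1.symm h4
  · rw [Finset.card_union_of_disjoint, card_ival (by simp only [red]; omega), ← hT,
      Finset.card_image_of_injective _ Fin.val_injective]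
    rw [Finset.disjoint_left]
    intro v hv hv'
    have := hS.1 _ (hT' v hv)
    simp [ival] at hv'; omega
  · intro v hv
    rcases Finset.mem_union.1 hv with hv | hv
    · have := hS.1 _ (hT' v hv); omega
    · simp [ival] at hv; omega

theorem nbr_ge (S : Finset (Fin (red n E e k m).1)) (u) (hu : u ∈ S) (T : Finset (Fin (red n E e k m).1))
    (h : ∀ v ∈ T, blk (n + e) k u ≠ blk (n + e) k v) :
    T.card ≤ (nbr (RG n E e k m) S).ncard := by
  rw [← Set.ncard_coe_finset]
  exact Set.ncard_le_ncard (fun v hv => ⟨u, hu, red_adj.2 (Or.inl (h v hv))⟩)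

theorem red_nucleus {α : ℕ} (hα : ∀ S, IndepN n E S → S.card ≤ α) (h1 : α + e < k + m)
    (h2 : k < n + e + m) (h3 : m < n + e) : nucleus (RG n E e k m) = ∅ := by
  refine nucleus_empty _ fun I hI ⟨u, hu⟩ => ?_
  rcases indep_cases I hI with h | h | h
  · have := nbr_ge I u hu (ival _ (n + e) (k + m)) fun v hv => by
      have := h u hu
      simp [ival] at hv; unfold blk; split_ifs <;> omega
    rw [card_ival (by simp only [red]; omega)] at this
    have h4 := card_split I h
    have := hα _ (indepN_of I hI)
    have := Finset.card_le_card h4.2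
    rw [card_ival (by simp only [red]; omega)] at this
    omega
  · have := nbr_ge I u hu (ival _ 0 (n + e) ∪ ival _ (n + e + k) m) fun v hv => by
      have := h u hu
      simp [ival] at hv; unfold blk; split_ifs <;> omega
    rw [Finset.card_union_of_disjoint (by
        rw [Finset.disjoint_left]; intro v hv hv'; simp [ival] at hv hv'; omega),
      card_ival (by simp only [red]; omega), card_ival (by simp only [red]; omega)] at this
    have := card_le_of_range I _ _ h
    omega
  · have := nbr_ge I u hu (ival _ 0 (n + e)) fun v hv => by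
      have := h u hu
      simp [ival] at hv; unfold blk; split_ifs <;> omega
    rw [card_ival (by simp only [red]; omega)] at this
    have := card_le_of_range I _ _ h
    omega

theorem indep_bound {α : ℕ} (hα : ∀ S, IndepN n E S → S.card ≤ α) {B : ℕ} (h1 : α + e ≤ B)
    (h2 : k ≤ B) (h3 : m ≤ B) (S : Finset (Fin (red n E e k m).1))
    (hS : (RG n E e k m).IsIndepSet (S : Set _)) : S.card ≤ B := by
  rcases indep_cases S hS with h | h | h
  · have h4 := card_split S h
    have := hα _ (indepN_of S hS)
    have := Finset.card_le_card h4.2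
    rw [card_ival (by simp only [red]; omega)] at this
    omega
  · have := card_le_of_range S _ _ h; omega
  · have := card_le_of_range S _ _ h; omega

end

theorem pt_red {e k m : ℕ → ℕ} (he : PT e) (hk : PT k) (hm : PT m) :
    PT fun p : ℕ × List (ℕ × ℕ) × ℕ => red p.1 p.2.1 (e p.2.2) (k p.2.2) (m p.2.2) := by
  unfold red blk
  exact PT.mk (by fun_prop) (PT.edgesOf (by fun_prop) (by fun_prop))

theorem np_hard : NPH (fun _ : ℕ × List (ℕ × ℕ) => True)
    (fun p => core (graphOf p.1 p.2) = nucleus (graphOf p.1 p.2)) := by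
  refine indep_nph.reduce (fun p => red p.1 p.2.1 3 (p.2.2 + 3) 1 ) (pt_red (e := fun _ => 3)
    (k := fun k => k + 3) (m := fun _ => 1) (by fun_prop) (by fun_prop) (by fun_prop)) ?_
  rintro ⟨n, E, k⟩ ⟨hn, hα⟩
  simp only at hn hα ⊢
  refine ⟨trivial, ?_⟩
  have hmax : (RG n E 3 (k + 3) 1).IsMaximumIndepSet (ival _ (n + 3) (k + 3)) :=
    ⟨ival_indep _ _ (by omega) (by omega), fun S hS => by
      rw [card_ival (by simp only [red]; omega)]
      exact indep_bound hα (by omega) (by omega) (by omega) S hS⟩
  rw [red_nucleus hα (by omega) (by omega) (by omega)]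
  constructor
  · rintro ⟨S, hS, hc⟩
    obtain ⟨T, hT, hc', hlt⟩ := lift_indep (e := 3) (k := k + 3) (m := 1) S hS
    refine Set.eq_empty_of_forall_notMem fun v hv => ?_
    have h1 := hv _ hmax
    have h2 := hlt v (hv T ⟨hT, fun S hS => by
      rw [hc', hc]; exact indep_bound hα (by omega) (by omega) (by omega) S hS⟩)
    simp [ival] at h1; omega
  · intro hc
    by_contra hno
    have hα' : ∀ S, IndepN n E S → S.card < k := fun S hS => by
      have := hα S hS
      have : S.card ≠ k := fun e => hno ⟨S, hS, e⟩
      omega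
    have : (⟨n + 3, by simp only [red]; omega⟩ : Fin (red n E 3 (k + 3) 1).1) ∈
        core (RG n E 3 (k + 3) 1) := by
      intro S hS
      have h1 := hS.maximum _ hmax.1
      rw [card_ival (by simp only [red]; omega)] at h1
      rcases indep_cases S hS.1 with h | h | h
      · have h4 := card_split S h
        have := hα' _ (indepN_of S hS.1)
        have := Finset.card_le_card h4.2
        rw [card_ival (by simp only [red]; omega)] at this
        omega
      · have : S = ival _ (n + 3) (k + 3) := Finset.eq_of_subset_of_card_le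
          (fun v hv => by simpa [ival] using h v hv) (by rwa [card_ival (by simp only [red]; omega)])
        rw [this]; simp [ival]
      · have := card_le_of_range S _ _ h; omega
    rw [hc] at this; exact this

theorem conp_hard : NPH (fun _ : ℕ × List (ℕ × ℕ) => True)
    (fun p => ¬ core (graphOf p.1 p.2) = nucleus (graphOf p.1 p.2)) := by
  refine indep_nph.reduce (fun p => red p.1 p.2.1 4 (p.2.2 + 3) (p.2.2 + 3)) (pt_red (e := fun _ => 4)
    (k := fun k => k + 3) (m := fun k => k + 3) (by fun_prop) (by fun_prop) (by fun_prop)) ?_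
  rintro ⟨n, E, k⟩ ⟨hn, hα⟩
  simp only at hn hα ⊢
  refine ⟨trivial, ?_⟩
  rw [red_nucleus hα (by omega) (by omega) (by omega)]
  constructor
  · rintro ⟨S, hS, hc⟩ hcore
    obtain ⟨T, hT, hc', hlt⟩ := lift_indep (e := 4) (k := k + 3) (m := k + 3) S hS
    have : (⟨n, by simp only [red]; omega⟩ : Fin (red n E 4 (k + 3) (k + 3)).1) ∈
        core (RG n E 4 (k + 3) (k + 3)) := by
      intro U hU
      have h1 := hU.maximum _ hT
      rcases indep_cases U hU.1 with h | h | h
      · have h4 := card_split U h
        have := hα _ (indepN_of U hU.1)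
        have h5 : (U.filter fun v => ¬ v.val < n) = ival _ n 4 := Finset.eq_of_subset_of_card_le h4.2
          (by rw [card_ival (by simp only [red]; omega)]; omega)
        have : (⟨n, by simp only [red]; omega⟩ : Fin (red n E 4 (k + 3) (k + 3)).1) ∈
          (U.filter fun v => ¬ v.val < n) := by rw [h5]; simp [ival]
        exact (Finset.mem_filter.1 this).1
      · have := card_le_of_range U _ _ h; omega
      · have := card_le_of_range U _ _ h; omega
    rw [hcore] at this; exact this
  · intro hc
    by_contra hno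
    apply hc
    have hα' : ∀ S, IndepN n E S → S.card < k := fun S hS => by
      have := hα S hS
      have : S.card ≠ k := fun e => hno ⟨S, hS, e⟩
      omega
    have hk := hα' ∅ ⟨by simp, by simp⟩
    have hα'' : ∀ S, IndepN n E S → S.card ≤ k - 1 := fun S hS => by have := hα' S hS; omega
    have hmax : ∀ a, a = n + 4 ∨ a = n + 4 + (k + 3) →
        (RG n E 4 (k + 3) (k + 3)).IsMaximumIndepSet (ival _ a (k + 3)) := fun a ha =>
      ⟨ival_indep _ _ (by omega) (by omega), fun S hS => by
        rw [card_ival (by simp only [red]; omega)]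
        exact indep_bound hα'' (by simp at hk; omega) (by omega) (by omega) S hS⟩
    refine Set.eq_empty_of_forall_notMem fun v hv => ?_
    have h1 := hv _ (hmax _ (Or.inl rfl))
    have h2 := hv _ (hmax _ (Or.inr rfl))
    simp [ival] at h1 h2; omega

end Pool.Agent.H38.Core
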